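import Pool.Agent.X178.LD.Gen

/-!
# The lower bound `log n / log t` for all t, end
-/

namespace Pool.Agent.X178.LD

open Finset Classical

noncomputable def yg {n : ℕ} (p : Fin n × Fin n) : ℝ :=
  if p.1 < p.2 then cR (p.2.val - p.1.val) else 0

theorem log_sum (t S : ℕ) (ht : 1 ≤ t) (a : Fin t → ℕ) (h : ∑ b, a b = S) :
    ph S - S * Real.log t ≤ ∑ b, ph (a b) := by
  rcases Nat.eq_zero_or_pos S with h0 | h0
  · subst h0
    have h1 : ∀ b, a b = 0 := fun b => by
      have := single_le_sum (f := a) (fun _ _ => Nat.zero_le _) (mem_univ b)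
      omega
    simp [h1, ph]
  · have hS : (0 : ℝ) < S := by exact_mod_cast h0
    have htR : (0 : ℝ) < t := by exact_mod_cast ht
    have hB : (0 : ℝ) < (S : ℝ) / t := by positivity
    have key : ∀ b, (a b : ℝ) * Real.log ((S : ℝ) / t) + a b - (S : ℝ) / t ≤ ph (a b) := by
      intro b
      rcases Nat.eq_zero_or_pos (a b) with h1 | h1
      · rw [h1]
        simp [ph]
        positivity
      · have ha : (0 : ℝ) < a b := by exact_mod_cast h1
        have h2 := Real.log_le_sub_one_of_pos (div_pos hB ha)
        rw [Real.log_div hB.ne' ha.ne'] at h2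
        have h3 := mul_le_mul_of_nonneg_left h2 ha.le
        have h4 : (a b : ℝ) * ((S : ℝ) / t / (a b) - 1) = (S : ℝ) / t - a b := by
          field_simp
        rw [h4] at h3
        unfold ph
        linarith
    have h5 := sum_le_sum fun b (_ : b ∈ univ) => key b
    rw [sum_sub_distrib, sum_add_distrib, ← sum_mul, sum_const, card_univ, Fintype.card_fin,
      nsmul_eq_mul] at h5
    have h6 : ∑ b, (a b : ℝ) = S := by rw [← h]; push_cast; rfl
    rw [h6, Real.log_div hS.ne' htR.ne'] at h5
    have h7 : (t : ℝ) * ((S : ℝ) / t) = S := by field_simp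
    rw [h7] at h5
    unfold ph at h5 ⊢
    linarith

theorem count_gen {n t : ℕ} (ht : 1 ≤ t) (f : PF n t) (hf : Mono f) :
    ∑ p ∈ univ.filter (fun p : Fin n × Fin n => p.1 < p.2 ∧ Cov f p.1 p.2), yg p ≤
      ∑ a ∈ univ.filter (fun a : Fin n => (f a).isSome), Real.log t := by
  set D := univ.filter (fun a : Fin n => (f a).isSome) with hD
  let L : Fin t → Finset (Fin n) := fun b => univ.filter (fun x => f x = some b)
  let X : Fin n → Finset (Fin n) := fun y => univ.filter (fun x => x < y ∧ Cov f x y)
  have e1 : ∑ p ∈ univ.filter (fun p : Fin n × Fin n => p.1 < p.2 ∧ Cov f p.1 p.2), yg p =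
      ∑ y, ∑ x ∈ X y, cR (y.val - x.val) := by
    rw [sum_filter, Fintype.sum_prod_type_right]
    refine sum_congr rfl fun y _ => ?_
    rw [sum_filter]
    refine sum_congr rfl fun x _ => ?_
    by_cases h : x < y ∧ Cov f x y
    · rw [if_pos h, if_pos h, yg, if_pos h.1]
    · rw [if_neg h, if_neg h]
  have e2 : ∀ y, ∑ x ∈ X y, cR (y.val - x.val) +
      ∑ b, (if f y = some b then g ((L b).filter (fun x => x < y)).card else 0) ≤
      if (f y).isSome then g (D.filter (fun x => x < y)).card else 0 := by
    intro y
    rcases hfy : f y with _ | b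
    · have hX : X y = ∅ := by
        rw [eq_empty_iff_forall_notMem]
        intro x hx
        obtain ⟨-, a, b, -, h2, -⟩ := (mem_filter.1 hx).2
        rw [hfy] at h2
        exact absurd h2 (by simp)
      rw [hX]
      simp
    · have e3 : ∑ b', (if some b = some b' then g ((L b').filter (fun x => x < y)).card else 0) =
          g ((L b).filter (fun x => x < y)).card := by
        rw [sum_eq_single b]
        · rw [if_pos rfl]
        · intro b' _ hb'
          rw [if_neg]
          intro h
          exact hb' (Option.some.inj h).symm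
        · intro h
          exact absurd (mem_univ _) h
      rw [e3]
      simp only [Option.isSome_some, if_true]
      set Q := (L b).filter (fun x => x < y) with hQ
      have hdis : Disjoint Q (X y) := by
        rw [disjoint_left]
        intro x hx hx2
        have h1 := (mem_filter.1 (mem_filter.1 hx).1).2
        obtain ⟨-, a, b', h2, h3, h4⟩ := (mem_filter.1 hx2).2
        rw [h1] at h2
        rw [hfy] at h3
        have h5 := Option.some.inj h2
        have h6 := Option.some.inj h3
        rw [← h5, ← h6] at h4
        exact lt_irrefl _ h4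
      have hun : D.filter (fun x => x < y) = Q ∪ X y := by
        ext x
        simp only [mem_filter, mem_univ, true_and, mem_union, hD, hQ, L, X]
        constructor
        · rintro ⟨h1, h2⟩
          obtain ⟨a, ha⟩ := Option.isSome_iff_exists.1 h1
          rcases (hf x y a b h2.le ha hfy).lt_or_eq with h3 | h3
          · exact Or.inr ⟨h2, a, b, ha, hfy, h3⟩
          · exact Or.inl ⟨by rw [ha, h3], h2⟩
        · rintro (⟨h1, h2⟩ | ⟨h1, a, b', h2, -, -⟩)
          · exact ⟨by rw [h1]; rfl, h2⟩
          · exact ⟨by rw [h2]; rfl, h1⟩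
      have hcard : (D.filter (fun x => x < y)).card = Q.card + (X y).card := by
        rw [hun, card_union_of_disjoint hdis]
      have h1 : ∑ x ∈ X y, cR (y.val - x.val) ≤
          ∑ i ∈ range (X y).card, cR (Q.card + i + 1) := by
        have h2 := sumX y.val Q.card ((X y).map Fin.valEmbedding) ?_
        · rw [sum_map, card_map] at h2
          exact h2
        · intro x hx
          obtain ⟨x', hx', rfl⟩ := mem_map.1 hx
          obtain ⟨h3, a, b', h4, h5, h6⟩ := (mem_filter.1 hx').2
          have hbb : b = b' := by
            rw [hfy] at h5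
            exact Option.some.inj h5
          have h7 : Q.map Fin.valEmbedding ⊆ Ioo x'.val y.val := by
            intro z hz
            obtain ⟨z', hz', rfl⟩ := mem_map.1 hz
            have h8 := mem_filter.1 hz'
            have h9 := (mem_filter.1 h8.1).2
            refine mem_Ioo.2 ⟨?_, Fin.lt_def.1 h8.2⟩
            by_contra hle
            have h10 : z' ≤ x' := Fin.le_def.2 (not_lt.1 hle)
            have h11 := hf z' x' b a h10 h9 h4
            rw [hbb] at h11
            exact absurd h6 (not_lt.2 h11)
          have h12 := card_le_card h7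
          rw [card_map, Nat.card_Ioo] at h12
          have h13 := Fin.lt_def.1 h3
          change x'.val + Q.card + 1 ≤ y.val
          omega
      have h14 : g (Q.card + (X y).card) = g Q.card +
          ∑ i ∈ range (X y).card, cR (Q.card + i + 1) := by
        unfold g
        rw [sum_range_add]
      rw [hcard, h14]
      linarith
  have e4 := sum_le_sum fun y (_ : y ∈ univ) => e2 y
  rw [sum_add_distrib, ← e1] at e4
  have e5 : ∑ y, (if (f y).isSome then g (D.filter (fun x => x < y)).card else 0) =
      ph D.card := by
    rw [← sum_filter, rank_sum, sum_g]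
  have e6 : ∑ y, ∑ b, (if f y = some b then g ((L b).filter (fun x => x < y)).card else 0) =
      ∑ b, ph (L b).card := by
    rw [sum_comm]
    refine sum_congr rfl fun b _ => ?_
    rw [← sum_filter, rank_sum, sum_g]
  have e7 : ∑ b, (L b).card = D.card := by
    rw [← card_biUnion]
    · congr 1
      ext x
      simp only [mem_biUnion, mem_univ, true_and, mem_filter, hD, L]
      exact Option.isSome_iff_exists.symm
    · intro b _ b' _ hbb
      rw [Function.onFun, disjoint_filter]
      intro x _ h1 h2
      rw [h1] at h2
      exact hbb (Option.some.inj h2)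
  have e8 := log_sum t D.card ht (fun b => (L b).card) e7
  rw [e5, e6] at e4
  rw [sum_const, nsmul_eq_mul]
  linarith

theorem total_gen (n : ℕ) :
    ∑ p ∈ univ.filter (fun p : Fin n × Fin n => p.1 < p.2), yg p = ph n := by
  rw [sum_filter, Fintype.sum_prod_type_right, ← sum_g, ← Fin.sum_univ_eq_sum_range]
  refine sum_congr rfl fun y _ => ?_
  have h1 : ∑ x : Fin n, (if x < y then yg (x, y) else 0) =
      ∑ x : Fin n, (if x.val < y.val then cR (y.val - x.val) else 0) := by
    refine sum_congr rfl fun x _ => ?_
    by_cases h : x < y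
    · rw [if_pos h, if_pos (Fin.lt_def.1 h), yg, if_pos h]
    · rw [if_neg h, if_neg (fun h' => h (Fin.lt_def.2 h'))]
  rw [h1, Fin.sum_univ_eq_sum_range (fun x => if x < y.val then cR (y.val - x) else 0),
    ← sum_filter]
  have h2 : (range n).filter (fun x => x < y.val) = range y.val := by
    ext x
    simp only [mem_filter, mem_range]
    have := y.2
    omega
  rw [h2, g, ← sum_range_reflect]
  refine sum_congr rfl fun x hx => ?_
  have := mem_range.1 hx
  congr 1
  omega

/-- the lower bound -/
theorem low_gen (n t : ℕ) (hn : 1 ≤ n) (ht : 1 ≤ t) (w : PF n t → ℝ) (hw : Realiser n t w) (ρ : ℝ)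
    (hρ : ∀ x, load w x ≤ ρ) : Real.log n ≤ ρ * Real.log t := by
  have h1 := dual hw yg (fun _ => Real.log t)
    (fun p => by
      unfold yg
      split_ifs with h
      · exact cR_nonneg _ (by have := Fin.lt_def.1 h; omega)
      · exact le_rfl) (fun f hf => count_gen ht f hf)
  rw [total_gen] at h1
  have hlog : 0 ≤ Real.log t := Real.log_nonneg (by exact_mod_cast ht)
  have h2 : ∑ a : Fin n, Real.log t * load w a ≤ ∑ _a : Fin n, Real.log t * ρ :=
    sum_le_sum fun a _ => mul_le_mul_of_nonneg_left (hρ a) hlog
  rw [sum_const, card_univ, Fintype.card_fin, nsmul_eq_mul] at h2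
  have h3 : (0 : ℝ) < n := by exact_mod_cast hn
  have h4 : (n : ℝ) * Real.log n ≤ n * (Real.log t * ρ) := by
    unfold ph at h1
    linarith
  have h5 := le_of_mul_le_mul_left h4 h3
  linarith

end Pool.Agent.X178.LD
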