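import Pool.Agent.X178.LD.Up

/-!
# The upper bound for t = 2, end
-/

namespace Pool.Agent.X178.LD

open Finset Classical

theorem card_lt (h r : ℕ) (hr : r ≤ h) :
    (univ.filter (fun j : Fin h => j.val < r)).card = r := by
  have h1 : (univ.filter (fun j : Fin h => j.val < r)).card = (univ : Finset (Fin r)).card := by
    symm
    refine card_bij (fun (c : Fin r) _ => (⟨c.val, by omega⟩ : Fin h)) ?_ ?_ ?_
    · intro c _
      exact mem_filter.2 ⟨mem_univ _, c.2⟩
    · intro c _ d _ hcd
      exact Fin.ext (Fin.mk.inj_iff.1 hcd)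
    · intro a ha
      exact ⟨⟨a.val, (mem_filter.1 ha).2⟩, mem_univ _, rfl⟩
  rw [h1, card_univ, Fintype.card_fin]

theorem card_left (h r : ℕ) [NeZero h] (hr : r ≤ h) (i : Fin h) :
    (univ.filter (fun s : Fin h => (i - s).val < r)).card = r := by
  refine Eq.trans ?_ (card_lt h r hr)
  refine card_bij (fun s _ => i - s) ?_ ?_ ?_
  · intro s hs
    exact mem_filter.2 ⟨mem_univ _, (mem_filter.1 hs).2⟩
  · intro s _ s' _ hss
    exact sub_right_injective hss
  · intro j hj
    refine ⟨i - j, mem_filter.2 ⟨mem_univ _, ?_⟩, sub_sub_cancel i j⟩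
    rw [sub_sub_cancel]
    exact (mem_filter.1 hj).2

theorem card_right (h r : ℕ) [NeZero h] (hr : r ≤ h) (s : Fin h) :
    (univ.filter (fun i : Fin h => (i - s).val < r)).card = r := by
  refine Eq.trans ?_ (card_lt h r hr)
  refine card_bij (fun i _ => i - s) ?_ ?_ ?_
  · intro i hi
    exact mem_filter.2 ⟨mem_univ _, (mem_filter.1 hi).2⟩
  · intro i _ i' _ hii
    exact sub_left_injective hii
  · intro j hj
    refine ⟨j + s, mem_filter.2 ⟨mem_univ _, ?_⟩, add_sub_cancel_right j s⟩
    rw [add_sub_cancel_right]
    exact (mem_filter.1 hj).2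

theorem DD_even (h r : ℕ) [NeZero h] (s : Fin h) (j : ℕ) (hj : DD h r s j) : j % 2 = 0 := by
  obtain ⟨i, hi, -⟩ := hj
  omega

theorem nu_lt (n k h r : ℕ) [NeZero h] (hh : h = n / 2) (hr : r ≤ h) (hn : 2 ≤ n)
    (hnr : n = 2 ^ k + r) (s : Fin h) (x : Fin n) : nu (DD h r s) x.val < 2 ^ k := by
  have h1 : nu (DD h r s) x.val ≤ nu (DD h r s) (n - 1) := nu_mono _ (by omega)
  have h2 := nu_add (DD h r s) (n - 1)
  have h3 : r ≤ ((range (n - 1)).filter (DD h r s)).card := by
    calc r = (univ.filter (fun i : Fin h => (i - s).val < r)).card := (card_right h r hr s).symm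
      _ ≤ _ := by
        refine card_le_card_of_injOn (fun i : Fin h => 2 * i.val) (fun i hi => ?_) ?_
        · refine mem_coe.2 (mem_filter.2 ⟨mem_range.2 ?_, i, rfl, (mem_filter.1 hi).2⟩)
          have := i.2
          simp only
          omega
        · intro i _ i' _ hii
          have hii' : 2 * i.val = 2 * i'.val := hii
          exact Fin.ext (by omega)
  have h4 : 0 < 2 ^ k := by positivity
  omega

theorem up2 (n k : ℕ) (hn : 2 ≤ n) (h1 : 2 ^ k ≤ n) (h2 : n < 2 ^ (k + 1)) :
    ∃ w : PF n 2 → ℝ, Realiser n 2 w ∧
      ∀ x, load w x ≤ (k : ℝ) + ((n : ℝ) - 2 ^ k) / ((n / 2 : ℕ) : ℝ) := by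
  obtain ⟨r, hnr⟩ := Nat.exists_eq_add_of_le h1
  obtain ⟨h, hh⟩ : ∃ h, h = n / 2 := ⟨_, rfl⟩
  have hr : r ≤ h := by rw [pow_succ] at h2; omega
  have hpos : 0 < h := by omega
  have : NeZero h := ⟨hpos.ne'⟩
  have hR : (0 : ℝ) < h := by exact_mod_cast hpos
  rw [← hh]
  have hrn : ((n : ℝ) - 2 ^ k) = r := by
    rw [hnr]; push_cast; ring
  rw [hrn]
  refine ofFamily (FF n h k r) (fun _ => 1 / (h : ℝ)) _ (fun _ => by positivity)
    (FF_mono n h k r) ?_ ?_
  · intro x y hxy
    rw [Fintype.sum_prod_type]
    have hone : (1 : ℝ) = ∑ _s : Fin h, 1 / (h : ℝ) := by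
      rw [sum_const, card_univ, Fintype.card_fin, nsmul_eq_mul]
      field_simp
    refine le_trans (le_of_eq hone) (sum_le_sum fun s _ => ?_)
    have hex : ∃ u, Cov (FF n h k r (s, u)) x y := by
      have hx := nu_lt n k h r hh hr hn hnr s x
      have hy := nu_lt n k h r hh hr hn hnr s y
      rcases (nu_mono (DD h r s) (Fin.lt_def.1 hxy).le).lt_or_eq with hlt | heq
      · obtain ⟨j, hj, e1, e2, e3⟩ := digit k _ _ hlt hy
        refine ⟨Sum.inl (⟨j, hj⟩, ⟨nu (DD h r s) x.val / 2 ^ (j + 1),
          lt_of_le_of_lt (Nat.div_le_self _ _) hx⟩), 0, 1, ?_, ?_, by decide⟩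
        · simp [FF, e2]
        · simp [FF, e3, e1]
      · obtain ⟨e1, i, e2, e3⟩ := nu_eq (DD h r s) (DD_even h r s) (Fin.lt_def.1 hxy) heq
        refine ⟨Sum.inr i, 0, 1, ?_, ?_, by decide⟩
        · simp only [FF]
          rw [if_pos e3, if_pos e2]
        · simp only [FF]
          rw [if_pos e3, if_neg (by omega), if_pos (by omega)]
    obtain ⟨u, hu⟩ := hex
    calc 1 / (h : ℝ) = if Cov (FF n h k r (s, u)) x y then 1 / (h : ℝ) else 0 := by rw [if_pos hu]
      _ ≤ _ := single_le_sum (f := fun u => if Cov (FF n h k r (s, u)) x y then 1 / (h : ℝ) else 0)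
          (fun u _ => by split_ifs <;> positivity) (mem_univ u)
  · intro x
    rw [Fintype.sum_prod_type]
    simp_rw [Fintype.sum_sum_type]
    rw [sum_add_distrib]
    refine add_le_add ?_ ?_
    · calc ∑ s : Fin h, ∑ u : Fin k × Fin (2 ^ k),
            (if (FF n h k r (s, Sum.inl u) x).isSome then 1 / (h : ℝ) else 0)
          ≤ ∑ _s : Fin h, (k : ℝ) * (1 / (h : ℝ)) := by
            refine sum_le_sum fun s _ => ?_
            rw [Fintype.sum_prod_type]
            calc _ ≤ ∑ _j : Fin k, 1 / (h : ℝ) := by
                  refine sum_le_sum fun j _ => ?_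
                  rw [← sum_filter, sum_const, nsmul_eq_mul]
                  have hc : (univ.filter (fun b : Fin (2 ^ k) =>
                      (FF n h k r (s, Sum.inl (j, b)) x).isSome)).card ≤ 1 := by
                    rw [card_le_one]
                    intro a ha b hb
                    have ha' := (mem_filter.1 ha).2
                    have hb' := (mem_filter.1 hb).2
                    simp only [FF] at ha' hb'
                    split_ifs at ha' with e1 <;> split_ifs at hb' with e2 <;>
                      first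
                        | exact Fin.ext (e1.symm.trans e2)
                        | exact (Bool.false_ne_true ha').elim
                        | exact (Bool.false_ne_true hb').elim
                  have hc' : ((univ.filter (fun b : Fin (2 ^ k) =>
                      (FF n h k r (s, Sum.inl (j, b)) x).isSome)).card : ℝ) ≤ 1 := by
                    exact_mod_cast hc
                  have : (0 : ℝ) ≤ 1 / (h : ℝ) := by positivity
                  nlinarith
              _ = (k : ℝ) * (1 / (h : ℝ)) := by
                  rw [sum_const, card_univ, Fintype.card_fin, nsmul_eq_mul]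
        _ = k := by
            rw [sum_const, card_univ, Fintype.card_fin, nsmul_eq_mul]
            field_simp
    · calc ∑ s : Fin h, ∑ i : Fin h,
            (if (FF n h k r (s, Sum.inr i) x).isSome then 1 / (h : ℝ) else 0)
          ≤ ∑ s : Fin h, ∑ i : Fin h, (if x.val / 2 = i.val then
              (if (i - s).val < r then 1 / (h : ℝ) else 0) else 0) := by
            refine sum_le_sum fun s _ => sum_le_sum fun i _ => ?_
            have hp : (0 : ℝ) ≤ 1 / (h : ℝ) := by positivity
            have hs : (FF n h k r (s, Sum.inr i) x).isSome = true →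
                x.val / 2 = i.val ∧ (i - s).val < r := by
              intro hs
              simp only [FF] at hs
              split_ifs at hs with e1 e2 e3
              · exact ⟨by omega, e1⟩
              · exact ⟨by omega, e1⟩
              · exact absurd hs (by simp)
              · exact absurd hs (by simp)
            by_cases hS : (FF n h k r (s, Sum.inr i) x).isSome = true
            · obtain ⟨e1, e2⟩ := hs hS
              rw [if_pos hS, if_pos e1, if_pos e2]
            · rw [if_neg hS]
              split_ifs <;> first | exact hp | exact le_rfl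
        _ = ∑ i : Fin h, (if x.val / 2 = i.val then (r : ℝ) / h else 0) := by
            rw [sum_comm]
            refine sum_congr rfl fun i _ => ?_
            split_ifs
            · rw [← sum_filter, sum_const, card_left h r hr i, nsmul_eq_mul]
              ring
            · simp
        _ ≤ (r : ℝ) / h := by
            rw [← sum_filter, sum_const, nsmul_eq_mul]
            have hc : (univ.filter (fun i : Fin h => x.val / 2 = i.val)).card ≤ 1 := by
              rw [card_le_one]
              intro a ha b hb
              exact Fin.ext ((mem_filter.1 ha).2.symm.trans (mem_filter.1 hb).2)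
            have hc' : ((univ.filter (fun i : Fin h => x.val / 2 = i.val)).card : ℝ) ≤ 1 := by
              exact_mod_cast hc
            have : (0 : ℝ) ≤ (r : ℝ) / h := by positivity
            nlinarith

end Pool.Agent.X178.LD
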