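import Pool.Agent.X178.LD.Defs

/-!
# Digits: a realiser with local weights `k` for `n ≤ t ^ k`
-/

namespace Pool.Agent.X178.LD

open Finset Classical

theorem digit_gen (t k a b : ℕ) (ht : 1 ≤ t) (hab : a < b) (hb : b < t ^ k) :
    ∃ j < k, a / t ^ (j + 1) = b / t ^ (j + 1) ∧ (a / t ^ j) % t < (b / t ^ j) % t := by
  have hex : ∃ m, a / t ^ m = b / t ^ m :=
    ⟨k, by rw [Nat.div_eq_of_lt hb, Nat.div_eq_of_lt (hab.trans hb)]⟩
  have hk : Nat.find hex ≤ k :=
    Nat.find_min' hex (by rw [Nat.div_eq_of_lt hb, Nat.div_eq_of_lt (hab.trans hb)])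
  have hs := Nat.find_spec hex
  have h0 : Nat.find hex ≠ 0 := by
    intro h0
    rw [h0] at hs
    simp at hs
    omega
  obtain ⟨j, hj⟩ := Nat.exists_eq_succ_of_ne_zero h0
  have hn : ¬ a / t ^ j = b / t ^ j := Nat.find_min hex (by omega)
  rw [hj, Nat.succ_eq_add_one] at hs
  refine ⟨j, by omega, hs, ?_⟩
  have h1 : a / t ^ j ≤ b / t ^ j := Nat.div_le_div_right hab.le
  rw [pow_succ, ← Nat.div_div_eq_div_mul, ← Nat.div_div_eq_div_mul] at hs
  have h2 := Nat.div_add_mod (a / t ^ j) t
  have h3 := Nat.div_add_mod (b / t ^ j) t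
  rw [hs] at h2
  omega

theorem up_gen (n t k : ℕ) (ht : 1 ≤ t) (hn : n ≤ t ^ k) :
    ∃ w : PF n t → ℝ, Realiser n t w ∧ ∀ x, load w x ≤ (k : ℝ) := by
  let F : Fin k × Fin (t ^ k) → PF n t := fun u x =>
    if x.val / t ^ (u.1.val + 1) = u.2.val then
      some ⟨(x.val / t ^ u.1.val) % t, Nat.mod_lt _ ht⟩ else none
  refine ofFamily F (fun _ => 1) k (fun _ => zero_le_one) ?_ ?_ ?_
  · rintro ⟨j, c⟩ x y a b hxy ha hb
    simp only [F] at ha hb
    split_ifs at ha with h1
    split_ifs at hb with h2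
    rw [Option.some.injEq] at ha hb
    subst ha
    subst hb
    rw [Fin.le_def]
    simp only
    have h5 := Nat.div_le_div_right (c := t ^ j.val) (Fin.le_def.1 hxy)
    rw [pow_succ, ← Nat.div_div_eq_div_mul] at h1 h2
    have h3 := Nat.div_add_mod (x.val / t ^ j.val) t
    have h4 := Nat.div_add_mod (y.val / t ^ j.val) t
    rw [h1] at h3
    rw [h2] at h4
    omega
  · intro x y hxy
    obtain ⟨j, hj, e1, e2⟩ := digit_gen t k x.val y.val ht (Fin.lt_def.1 hxy)
      (lt_of_lt_of_le y.2 hn)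
    have hb : x.val / t ^ (j + 1) < t ^ k :=
      lt_of_le_of_lt (Nat.div_le_self _ _) (lt_of_lt_of_le x.2 hn)
    have hc : Cov (F (⟨j, hj⟩, ⟨x.val / t ^ (j + 1), hb⟩)) x y := by
      refine ⟨⟨(x.val / t ^ j) % t, Nat.mod_lt _ ht⟩, ⟨(y.val / t ^ j) % t, Nat.mod_lt _ ht⟩,
        ?_, ?_, e2⟩
      · simp [F]
      · simp [F, e1]
    calc (1 : ℝ) = if Cov (F (⟨j, hj⟩, ⟨x.val / t ^ (j + 1), hb⟩)) x y then 1 else 0 := by
          rw [if_pos hc]
      _ ≤ _ := single_le_sum (f := fun u => if Cov (F u) x y then (1 : ℝ) else 0)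
          (fun u _ => by split_ifs <;> positivity)
          (mem_univ ((⟨j, hj⟩, ⟨x.val / t ^ (j + 1), hb⟩) : Fin k × Fin (t ^ k)))
  · intro x
    rw [Fintype.sum_prod_type]
    calc _ ≤ ∑ _j : Fin k, (1 : ℝ) := by
          refine sum_le_sum fun j _ => ?_
          rw [← sum_filter, sum_const, nsmul_eq_mul, mul_one]
          have hc : (univ.filter (fun b : Fin (t ^ k) => (F (j, b) x).isSome)).card ≤ 1 := by
            rw [card_le_one]
            intro a ha b hb
            have ha' := (mem_filter.1 ha).2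
            have hb' := (mem_filter.1 hb).2
            simp only [F] at ha' hb'
            split_ifs at ha' with e1 <;> split_ifs at hb' with e2 <;>
              first
                | exact Fin.ext (e1.symm.trans e2)
                | exact (Bool.false_ne_true ha').elim
                | exact (Bool.false_ne_true hb').elim
          exact_mod_cast hc
      _ = k := by
          rw [sum_const, card_univ, Fintype.card_fin, nsmul_eq_mul, mul_one]

end Pool.Agent.X178.LD
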