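import Mathlib

/-!
# Fractional local t-dimension of a finite chain: definitions
-/

namespace Pool.Agent.X178.LD

open Finset Classical

/-- partial functions from the chain `Fin n` to the chain `Fin t` (`none`: not in the domain) -/
abbrev PF (n t : ℕ) := Fin n → Option (Fin t)

/-- monotone partial functions -/
def Mono {n t : ℕ} (f : PF n t) : Prop :=
  ∀ x y : Fin n, ∀ a b : Fin t, x ≤ y → f x = some a → f y = some b → a ≤ b

/-- `x` and `y` are in the domain of `f` and `f x < f y` -/
def Cov {n t : ℕ} (f : PF n t) (x y : Fin n) : Prop :=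
  ∃ a b : Fin t, f x = some a ∧ f y = some b ∧ a < b

/-- `w` is a fractional local `t`-realiser of the chain with `n` elements: a nonnegative weight on
the monotone partial functions such that for all `x < y` the functions with `f x < f y` have
total weight at least `1`. -/
structure Realiser (n t : ℕ) (w : PF n t → ℝ) : Prop where
  nonneg : ∀ f, 0 ≤ w f
  mono : ∀ f, w f ≠ 0 → Mono f
  cover : ∀ x y : Fin n, x < y → 1 ≤ ∑ f : PF n t, if Cov f x y then w f else 0

/-- the local weight of `w` at `x` -/
noncomputable def load {n t : ℕ} (w : PF n t → ℝ) (x : Fin n) : ℝ :=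
  ∑ f : PF n t, if (f x).isSome then w f else 0

/-- the fractional local `t`-dimension of the chain with `n` elements is `ρ`: `ρ` is the least
number such that some fractional local `t`-realiser has all local weights at most `ρ` -/
def IsLdim (n t : ℕ) (ρ : ℝ) : Prop :=
  IsLeast {r : ℝ | ∃ w : PF n t → ℝ, Realiser n t w ∧ ∀ x, load w x ≤ r} ρ

/-- linear programming duality, weak form, with a set of pairs -/
theorem dual {n t : ℕ} {w : PF n t → ℝ} (hw : Realiser n t w) (y : Fin n × Fin n → ℝ)
    (z : Fin n → ℝ) (hy : ∀ p, 0 ≤ y p)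
    (h : ∀ f : PF n t, Mono f →
      ∑ p ∈ univ.filter (fun p : Fin n × Fin n => p.1 < p.2 ∧ Cov f p.1 p.2), y p ≤
        ∑ a ∈ univ.filter (fun a => (f a).isSome), z a) :
    ∑ p ∈ univ.filter (fun p : Fin n × Fin n => p.1 < p.2), y p ≤ ∑ a, z a * load w a := by
  calc ∑ p ∈ univ.filter (fun p : Fin n × Fin n => p.1 < p.2), y p
      ≤ ∑ p ∈ univ.filter (fun p : Fin n × Fin n => p.1 < p.2),
          y p * ∑ f : PF n t, (if Cov f p.1 p.2 then w f else 0) := by
        refine sum_le_sum fun p hp => ?_
        have h1 := hw.cover p.1 p.2 (mem_filter.1 hp).2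
        nlinarith [hy p]
    _ = ∑ f : PF n t, w f *
          ∑ p ∈ univ.filter (fun p : Fin n × Fin n => p.1 < p.2 ∧ Cov f p.1 p.2), y p := by
        simp_rw [mul_sum]
        rw [sum_comm]
        refine sum_congr rfl fun f _ => ?_
        rw [← filter_filter, sum_filter (s := univ.filter (fun p : Fin n × Fin n => p.1 < p.2))]
        refine sum_congr rfl fun p _ => ?_
        split_ifs with hc <;> ring
    _ ≤ ∑ f : PF n t, w f * ∑ a ∈ univ.filter (fun a => (f a).isSome), z a := by
        refine sum_le_sum fun f _ => ?_
        by_cases hf : w f = 0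
        · simp [hf]
        · exact mul_le_mul_of_nonneg_left (h f (hw.mono f hf)) (hw.nonneg f)
    _ = ∑ a, z a * load w a := by
        have e1 : ∀ a, z a * load w a =
            ∑ f : PF n t, (if (f a).isSome then w f * z a else 0) := by
          intro a
          rw [load, mul_sum]
          refine sum_congr rfl fun f _ => ?_
          split_ifs <;> ring
        rw [sum_congr rfl fun a _ => e1 a, sum_comm]
        refine sum_congr rfl fun f _ => ?_
        rw [mul_sum, sum_filter]

/-- a realiser from an indexed family -/
theorem ofFamily {n t : ℕ} {ι : Type} [Fintype ι] (F : ι → PF n t) (c : ι → ℝ) (ρ : ℝ)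
    (hc : ∀ i, 0 ≤ c i) (hF : ∀ i, Mono (F i))
    (hcov : ∀ x y : Fin n, x < y → 1 ≤ ∑ i, if Cov (F i) x y then c i else 0)
    (hload : ∀ x, ∑ i, (if (F i x).isSome then c i else 0) ≤ ρ) :
    ∃ w : PF n t → ℝ, Realiser n t w ∧ ∀ x, load w x ≤ ρ := by
  have key : ∀ P : PF n t → Prop,
      ∑ f : PF n t, (if P f then (∑ i, if F i = f then c i else 0) else 0) =
        ∑ i, if P (F i) then c i else 0 := by
    intro P
    have h1 : ∀ f : PF n t, (if P f then (∑ i, if F i = f then c i else 0) else 0) =
        ∑ i, if F i = f then (if P (F i) then c i else 0) else 0 := by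
      intro f
      by_cases hP : P f
      · rw [if_pos hP]
        refine sum_congr rfl fun i _ => ?_
        split_ifs with h1 h2 h2
        · rfl
        · exact absurd (h1 ▸ hP) h2
        · rfl
      · rw [if_neg hP]
        symm
        refine sum_eq_zero fun i _ => ?_
        split_ifs with h1 h2
        · exact absurd (h1 ▸ h2) hP
        · rfl
        · rfl
    simp_rw [h1]
    rw [sum_comm]
    refine sum_congr rfl fun i _ => ?_
    simp
  refine ⟨fun f => ∑ i, if F i = f then c i else 0, ⟨?_, ?_, ?_⟩, ?_⟩
  · intro f
    exact sum_nonneg fun i _ => by split_ifs <;> simp [hc i]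
  · intro f hf
    by_contra hm
    apply hf
    refine sum_eq_zero fun i _ => ?_
    split_ifs with h1
    · exact absurd (h1 ▸ hF i) hm
    · rfl
  · intro x y hxy
    rw [key (fun f => Cov f x y)]
    exact hcov x y hxy
  · intro x
    have h := key (fun f => (f x).isSome = true)
    refine le_trans (le_of_eq ?_) (hload x)
    rw [load]
    refine Eq.trans ?_ (h.trans ?_)
    · refine sum_congr rfl fun _ _ => ?_
      congr
    · refine sum_congr rfl fun _ _ => ?_
      congr

end Pool.Agent.X178.LD
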