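import Pool.Agent.X178.LD.Defs

/-!
# The lower bound `log n / log t` for all t
-/

namespace Pool.Agent.X178.LD

open Finset Classical

noncomputable def ph (x : ℝ) : ℝ := x * Real.log x

/-- second difference of `x log x` -/
noncomputable def cR (d : ℕ) : ℝ := ph ((d : ℝ) + 1) + ph ((d : ℝ) - 1) - 2 * ph d

noncomputable def g (m : ℕ) : ℝ := ∑ i ∈ range m, cR (i + 1)

theorem g_eq (m : ℕ) : g m = ph ((m : ℝ) + 1) - ph m := by
  induction m with
  | zero => simp [g, ph]
  | succ m ih =>
    rw [g, sum_range_succ, ← g, ih, cR]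
    push_cast
    rw [show ((m : ℝ) + 1 - 1) = m by ring]
    ring

theorem sum_g (S : ℕ) : ∑ p ∈ range S, g p = ph S := by
  induction S with
  | zero => simp [ph]
  | succ S ih =>
    rw [sum_range_succ, ih, g_eq]
    push_cast
    ring

/-- the derivative argument: `c` is decreasing -/
theorem anti_aux : AntitoneOn (fun x : ℝ => ph (x + 1) + ph (x - 1) - 2 * ph x) (Set.Ici 1) := by
  have hc : Continuous (fun x : ℝ => x * Real.log x) := Real.continuous_mul_log
  refine antitoneOn_of_deriv_nonpos (convex_Ici 1) ?_ ?_ ?_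
  · unfold ph
    exact (((hc.comp (continuous_id.add continuous_const)).add
      (hc.comp (continuous_id.sub continuous_const))).sub (hc.const_smul (2 : ℝ))).continuousOn
  · intro x hx
    rw [interior_Ici] at hx
    have hx' : 1 < x := hx
    have h1 := (Real.hasDerivAt_mul_log (x := x + 1) (by linarith)).comp x
      ((hasDerivAt_id x).add_const 1)
    have h2 := (Real.hasDerivAt_mul_log (x := x - 1) (by linarith)).comp x
      ((hasDerivAt_id x).sub_const 1)
    have h3 := (Real.hasDerivAt_mul_log (x := x) (by linarith)).const_mul 2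
    exact ((h1.add h2).sub h3).differentiableAt.differentiableWithinAt
  · intro x hx
    rw [interior_Ici] at hx
    have hx' : 1 < x := hx
    have h1 := (Real.hasDerivAt_mul_log (x := x + 1) (by linarith)).comp x
      ((hasDerivAt_id x).add_const 1)
    have h2 := (Real.hasDerivAt_mul_log (x := x - 1) (by linarith)).comp x
      ((hasDerivAt_id x).sub_const 1)
    have h3 := (Real.hasDerivAt_mul_log (x := x) (by linarith)).const_mul 2
    have h4 := ((h1.add h2).sub h3).deriv
    have h5 : deriv (fun x : ℝ => ph (x + 1) + ph (x - 1) - 2 * ph x) x =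
        (Real.log (x + 1) + 1) * 1 + (Real.log (x - 1) + 1) * 1 - 2 * (Real.log x + 1) := h4
    rw [h5]
    have h6 : Real.log (x + 1) + Real.log (x - 1) ≤ 2 * Real.log x := by
      rw [← Real.log_mul (by linarith) (by linarith)]
      have : 2 * Real.log x = Real.log (x * x) := by
        rw [Real.log_mul (by linarith) (by linarith)]; ring
      rw [this]
      exact Real.log_le_log (by nlinarith) (by nlinarith)
    linarith

theorem cR_anti (d e : ℕ) (h1 : 1 ≤ d) (h2 : d ≤ e) : cR e ≤ cR d := by
  have h1' : (1 : ℝ) ≤ d := by exact_mod_cast h1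
  have h2' : (d : ℝ) ≤ e := by exact_mod_cast h2
  exact anti_aux (Set.mem_Ici.2 h1') (Set.mem_Ici.2 (h1'.trans h2')) h2'

theorem cR_nonneg (d : ℕ) (h1 : 1 ≤ d) : 0 ≤ cR d := by
  have h1' : (1 : ℝ) ≤ d := by exact_mod_cast h1
  have hcv := Real.convexOn_mul_log.2
    (Set.mem_Ici.2 (by linarith : (0 : ℝ) ≤ (d : ℝ) + 1))
    (Set.mem_Ici.2 (by linarith : (0 : ℝ) ≤ (d : ℝ) - 1))
    (by norm_num : (0 : ℝ) ≤ 1 / 2) (by norm_num : (0 : ℝ) ≤ 1 / 2) (by norm_num)
  simp only [smul_eq_mul] at hcv
  rw [show (1 / 2 : ℝ) * ((d : ℝ) + 1) + 1 / 2 * ((d : ℝ) - 1) = d by ring] at hcv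
  unfold cR ph
  linarith

theorem sumX (y q : ℕ) (X : Finset ℕ) (h : ∀ x ∈ X, x + q + 1 ≤ y) :
    ∑ x ∈ X, cR (y - x) ≤ ∑ i ∈ range X.card, cR (q + i + 1) := by
  induction X using Finset.induction_on_min with
  | empty => simp
  | insert x X hx ih =>
    have hnot : x ∉ X := fun hm => lt_irrefl _ (hx x hm)
    rw [sum_insert hnot, card_insert_of_notMem hnot, sum_range_succ, add_comm]
    have h1 := ih (fun z hz => h z (mem_insert_of_mem hz))
    have h2 : X.card ≤ y - q - 1 - x := by
      have h3 : X ⊆ Ioc x (y - q - 1) := by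
        intro z hz
        have h4 := h z (mem_insert_of_mem hz)
        have h5 := hx z hz
        exact mem_Ioc.2 ⟨h5, by omega⟩
      have h6 := card_le_card h3
      rwa [Nat.card_Ioc] at h6
    have h7 := h x (mem_insert_self _ _)
    have h8 : cR (y - x) ≤ cR (q + X.card + 1) := cR_anti _ _ (by omega) (by omega)
    linarith

theorem rank_sum {n : ℕ} (G : ℕ → ℝ) (D : Finset (Fin n)) :
    ∑ y ∈ D, G (D.filter (fun x => x < y)).card = ∑ p ∈ range D.card, G p := by
  induction D using Finset.induction_on_max with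
  | empty => simp
  | insert m D hm ih =>
    have hnot : m ∉ D := fun h => lt_irrefl _ (hm m h)
    rw [sum_insert hnot, card_insert_of_notMem hnot, sum_range_succ, ← ih, add_comm]
    congr 1
    · refine sum_congr rfl fun y hy => ?_
      rw [filter_insert, if_neg (not_lt.2 (hm y hy).le)]
    · congr 2
      rw [filter_insert, if_neg (lt_irrefl m)]
      exact filter_true_of_mem hm

end Pool.Agent.X178.LD
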