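import Pool.Agent.X178.LD.Defs

/-!
# The lower bound for t = 2
-/

namespace Pool.Agent.X178.LD

open Finset Classical

theorem aux (v x a b c : ℕ) (h1 : v + 2 ^ c = x + 2 ^ b) (h2 : v < x) (h3 : 2 ^ a < 2 ^ c)
    (h4 : x < v + 2 ^ a) : False := by
  have hb : 2 ^ b < 2 ^ c := by omega
  have hb' : b < c := (Nat.pow_lt_pow_iff_right (by norm_num)).1 hb
  have ha' : a < c := (Nat.pow_lt_pow_iff_right (by norm_num)).1 h3
  have h5 : 2 ^ (b + 1) ≤ 2 ^ c := Nat.pow_le_pow_right (by norm_num) hb'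
  have h6 : 2 ^ (a + 1) ≤ 2 ^ c := Nat.pow_le_pow_right (by norm_num) ha'
  rw [pow_succ] at h5 h6
  omega

/-- Differences that are powers of two between a set `L` and a set `U` above `L` form a forest. -/
theorem forest (L U : Finset ℕ) (h : ∀ a ∈ L, ∀ b ∈ U, a < b) (hL : L.Nonempty)
    (E : Finset (ℕ × ℕ)) (hE : ∀ p ∈ E, p.1 ∈ L ∧ p.2 ∈ U ∧ ∃ j, p.2 = p.1 + 2 ^ j) :
    E.card + 1 ≤ L.card + U.card := by
  obtain ⟨m, hm, hmax⟩ : ∃ m ∈ L, ∀ x ∈ L, x ≤ m :=
    ⟨L.max' hL, L.max'_mem hL, fun x hx => L.le_max' x hx⟩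
  set E1 := E.filter (fun p => ∀ x, (x, p.2) ∈ E → x ≤ p.1) with hE1
  set E2 := E.filter (fun p => ¬ ∀ x, (x, p.2) ∈ E → x ≤ p.1) with hE2
  have c0 : E1.card + E2.card = E.card := card_filter_add_card_filter_not _
  have c1 : E1.card ≤ U.card := by
    refine card_le_card_of_injOn Prod.snd (fun p hp => ?_) ?_
    · exact (hE p (mem_filter.1 hp).1).2.1
    · rintro ⟨a, b⟩ hp ⟨a', b'⟩ hq (hpq : b = b')
      subst hpq
      have hp' := mem_filter.1 (mem_coe.1 hp)
      have hq' := mem_filter.1 (mem_coe.1 hq)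
      have h1 := hp'.2 a' hq'.1
      have h2 := hq'.2 a hp'.1
      simp only at h1 h2
      rw [le_antisymm h2 h1]
  have key : ∀ v y y', (v, y) ∈ E2 → (v, y') ∈ E2 → y' < y → False := by
    intro v y y' hp hq hlt
    have hp' := mem_filter.1 hp
    have hq' := mem_filter.1 hq
    have hn := hp'.2
    push Not at hn
    obtain ⟨x, hx, hvx⟩ := hn
    obtain ⟨-, -, c, hc⟩ := hE _ hp'.1
    obtain ⟨hxL, -, b, hb⟩ := hE _ hx
    obtain ⟨-, hy'U, a, ha⟩ := hE _ hq'.1
    simp only at hc hb ha hvx hxL hy'U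
    have h4 := h x hxL y' hy'U
    exact aux v x a b c (by omega) hvx (by omega) (by omega)
  have c2 : E2.card ≤ (L.erase m).card := by
    refine card_le_card_of_injOn Prod.fst (fun p hp => ?_) ?_
    · have hp' := mem_filter.1 hp
      have hn := hp'.2
      push Not at hn
      obtain ⟨x, hx, hvx⟩ := hn
      have h1 := hmax x (hE _ hx).1
      refine mem_coe.2 (mem_erase.2 ⟨by omega, (hE _ hp'.1).1⟩)
    · rintro ⟨a, b⟩ hp ⟨a', b'⟩ hq (hpq : a = a')
      subst hpq
      rcases lt_trichotomy b b' with hlt | heq | hgt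
      · exact (key a b' b (mem_coe.1 hq) (mem_coe.1 hp) hlt).elim
      · rw [heq]
      · exact (key a b b' (mem_coe.1 hp) (mem_coe.1 hq) hgt).elim
  rw [card_erase_of_mem hm] at c2
  have := hL.card_pos
  omega

/-- weights of the pairs -/
noncomputable def yy {n : ℕ} (p : Fin n × Fin n) : ℝ :=
  (if p.2.val = p.1.val + 1 then 1 else 0) +
    (if p.1.val % 2 = 1 ∧ p.2.val % 2 = 1 ∧ ∃ j, p.2.val = p.1.val + 2 ^ j then 1 else 0)

theorem count {n : ℕ} (f : PF n 2) (hf : Mono f) :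
    ∑ p ∈ univ.filter (fun p : Fin n × Fin n => p.1 < p.2 ∧ Cov f p.1 p.2), yy p ≤
      ∑ a ∈ univ.filter (fun a : Fin n => (f a).isSome), (if a.val % 2 = 1 then (1 : ℝ) else 0) := by
  set S := univ.filter (fun p : Fin n × Fin n => p.1 < p.2 ∧ Cov f p.1 p.2) with hS
  set A := S.filter (fun p => p.2.val = p.1.val + 1) with hA
  set E := S.filter (fun p => p.1.val % 2 = 1 ∧ p.2.val % 2 = 1 ∧
    ∃ j, p.2.val = p.1.val + 2 ^ j) with hE
  set L := univ.filter (fun a : Fin n => a.val % 2 = 1 ∧ f a = some 0) with hL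
  set U := univ.filter (fun a : Fin n => a.val % 2 = 1 ∧ f a = some 1) with hU
  have hcov : ∀ x y : Fin n, Cov f x y ↔ f x = some 0 ∧ f y = some 1 := by
    intro x y
    constructor
    · rintro ⟨a, b, ha, hb, hab⟩
      have h1 : a = 0 := by omega
      have h2 : b = 1 := by omega
      exact ⟨h1 ▸ ha, h2 ▸ hb⟩
    · rintro ⟨ha, hb⟩
      exact ⟨0, 1, ha, hb, by decide⟩
  have hlt : ∀ x y : Fin n, f x = some 0 → f y = some 1 → x < y := by
    intro x y hx hy
    by_contra hle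
    have := hf y x 1 0 (not_lt.1 hle) hy hx
    exact absurd this (by decide)
  have hLU : Disjoint L U := by
    rw [disjoint_filter]
    rintro a - ⟨-, h1⟩ ⟨-, h2⟩
    rw [h1] at h2
    exact absurd h2 (by decide)
  have e1 : ∑ p ∈ S, yy p = (A.card : ℝ) + E.card := by
    simp only [yy, sum_add_distrib]
    rw [sum_boole, sum_boole]
  have e2 : ∑ a ∈ univ.filter (fun a : Fin n => (f a).isSome),
      (if a.val % 2 = 1 then (1 : ℝ) else 0) = ((L.card + U.card : ℕ) : ℝ) := by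
    rw [sum_boole, ← card_union_of_disjoint hLU]
    congr 2
    ext a
    simp only [mem_filter, mem_univ, true_and, mem_union, hL, hU]
    constructor
    · rintro ⟨h1, h2⟩
      obtain ⟨v, hv⟩ := Option.isSome_iff_exists.1 h1
      have : v = 0 ∨ v = 1 := by omega
      rcases this with rfl | rfl
      · exact Or.inl ⟨h2, hv⟩
      · exact Or.inr ⟨h2, hv⟩
    · rintro (⟨h1, h2⟩ | ⟨h1, h2⟩)
      · exact ⟨by rw [h2]; rfl, h1⟩
      · exact ⟨by rw [h2]; rfl, h1⟩
  rw [e1, e2]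
  have hA1 : A.card ≤ 1 := by
    rw [card_le_one]
    rintro ⟨a, b⟩ hp ⟨a', b'⟩ hq
    have hp1 := mem_filter.1 hp
    have hq1 := mem_filter.1 hq
    have hp2 := (hcov a b).1 (mem_filter.1 hp1.1).2.2
    have hq2 := (hcov a' b').1 (mem_filter.1 hq1.1).2.2
    have h1 := hlt a b' hp2.1 hq2.2
    have h2 := hlt a' b hq2.1 hp2.2
    have h3 := hp1.2
    have h4 := hq1.2
    simp only at h3 h4
    rw [Fin.lt_def] at h1 h2
    refine Prod.ext (Fin.ext ?_) (Fin.ext ?_) <;> simp only <;> omega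
  have hmain : A.card + E.card ≤ L.card + U.card := by
    by_cases hLn : L.Nonempty
    · have h5 := forest (L.map Fin.valEmbedding) (U.map Fin.valEmbedding) ?_ ?_
        (E.map ⟨fun p : Fin n × Fin n => (p.1.val, p.2.val), fun p q hpq => by
          have h6 := (Prod.ext_iff.1 hpq).1
          have h7 := (Prod.ext_iff.1 hpq).2
          exact Prod.ext (Fin.ext h6) (Fin.ext h7)⟩) ?_
      · rw [card_map, card_map, card_map] at h5
        omega
      · intro a ha b hb
        obtain ⟨a', ha', rfl⟩ := mem_map.1 ha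
        obtain ⟨b', hb', rfl⟩ := mem_map.1 hb
        exact hlt a' b' (mem_filter.1 ha').2.2 (mem_filter.1 hb').2.2
      · exact hLn.map
      · intro p hp
        obtain ⟨q, hq, rfl⟩ := mem_map.1 hp
        have hq1 := mem_filter.1 hq
        have hq2 := (hcov q.1 q.2).1 (mem_filter.1 hq1.1).2.2
        refine ⟨mem_map.2 ⟨q.1, mem_filter.2 ⟨mem_univ _, hq1.2.1, hq2.1⟩, rfl⟩,
          mem_map.2 ⟨q.2, mem_filter.2 ⟨mem_univ _, hq1.2.2.1, hq2.2⟩, rfl⟩, hq1.2.2.2⟩
    · have hE0 : E = ∅ := by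
        rw [eq_empty_iff_forall_notMem]
        intro q hq
        have hq1 := mem_filter.1 hq
        have hq2 := (hcov q.1 q.2).1 (mem_filter.1 hq1.1).2.2
        exact hLn ⟨q.1, mem_filter.2 ⟨mem_univ _, hq1.2.1, hq2.1⟩⟩
      rw [hE0, card_empty, add_zero]
      by_cases hA0 : A = ∅
      · rw [hA0, card_empty]
        exact Nat.zero_le _
      · obtain ⟨⟨a, b⟩, hp⟩ := nonempty_iff_ne_empty.2 hA0
        have hp1 := mem_filter.1 hp
        have hp2 := (hcov a b).1 (mem_filter.1 hp1.1).2.2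
        have h3 := hp1.2
        simp only at h3
        have hb : b ∈ U := by
          refine mem_filter.2 ⟨mem_univ _, ?_, hp2.2⟩
          by_contra hodd
          exact hLn ⟨a, mem_filter.2 ⟨mem_univ _, by omega, hp2.1⟩⟩
        have := card_pos.2 ⟨b, hb⟩
        omega
  exact_mod_cast hmain

end Pool.Agent.X178.LD
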