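import Pool.Agent.X178.LD.Low

/-!
# The lower bound for t = 2, total weight of the pairs
-/

namespace Pool.Agent.X178.LD

open Finset Classical

theorem sum_pow (k : ℕ) : ∑ i ∈ range k, 2 ^ i + 1 = 2 ^ k := by
  induction k with
  | zero => simp
  | succ k ih => rw [sum_range_succ, pow_succ]; omega

theorem total (n k : ℕ) (hn : 1 ≤ n) :
    ((k * (n / 2) + n : ℕ) : ℝ) - 2 ^ k ≤
      ∑ p ∈ univ.filter (fun p : Fin n × Fin n => p.1 < p.2), yy p := by
  set S := univ.filter (fun p : Fin n × Fin n => p.1 < p.2) with hS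
  set A := S.filter (fun p => p.2.val = p.1.val + 1) with hA
  set E := S.filter (fun p => p.1.val % 2 = 1 ∧ p.2.val % 2 = 1 ∧
    ∃ j, p.2.val = p.1.val + 2 ^ j) with hE
  have e1 : ∑ p ∈ S, yy p = (A.card : ℝ) + E.card := by
    simp only [yy, sum_add_distrib]
    rw [sum_boole, sum_boole]
  have hAc : n - 1 ≤ A.card := by
    have h1 : (univ : Finset (Fin (n - 1))).card ≤ A.card := by
      refine card_le_card_of_injOn (fun a : Fin (n - 1) =>
        ((⟨a.val, by omega⟩ : Fin n), (⟨a.val + 1, by omega⟩ : Fin n))) (fun a _ => ?_) ?_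
      · refine mem_coe.2 (mem_filter.2 ⟨mem_filter.2 ⟨mem_univ _, ?_⟩, rfl⟩)
        rw [Fin.lt_def]
        simp
      · intro a _ b _ hab
        have h2 := congrArg Fin.val (Prod.ext_iff.1 hab).1
        exact Fin.ext h2
    rwa [card_univ, Fintype.card_fin] at h1
  have hEc : ∑ i ∈ range k, (n / 2 - 2 ^ i) ≤ E.card := by
    have h1 : ((range k).sigma (fun i => range (n / 2 - 2 ^ i))).card ≤ E.card := by
      have hinj : ∀ (c i d j : ℕ), 2 * c + 1 = 2 * d + 1 →
          2 * (c + 2 ^ i) + 1 = 2 * (d + 2 ^ j) + 1 → i = j ∧ c = d := by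
        intro c i d j h1 h2
        have h3 : c = d := by omega
        have h4 : 2 ^ i = 2 ^ j := by omega
        exact ⟨Nat.pow_right_injective (le_refl 2) h4, h3⟩
      let g : (Σ _ : ℕ, ℕ) → Fin n × Fin n := fun s =>
        (⟨(2 * s.2 + 1) % n, Nat.mod_lt _ hn⟩, ⟨(2 * (s.2 + 2 ^ s.1) + 1) % n, Nat.mod_lt _ hn⟩)
      have hg : ∀ s ∈ (range k).sigma (fun i => range (n / 2 - 2 ^ i)),
          (g s).1.val = 2 * s.2 + 1 ∧ (g s).2.val = 2 * (s.2 + 2 ^ s.1) + 1 := by
        intro s hs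
        have h2 : s.2 < n / 2 - 2 ^ s.1 := mem_range.1 (mem_sigma.1 hs).2
        have h3 : 2 * (s.2 + 2 ^ s.1) + 1 < n := by omega
        have h0 : 0 < 2 ^ s.1 := by positivity
        exact ⟨Nat.mod_eq_of_lt (by omega), Nat.mod_eq_of_lt h3⟩
      refine card_le_card_of_injOn g (fun s hs => ?_) ?_
      · obtain ⟨h2, h3⟩ := hg s hs
        have h4 : 0 < 2 ^ s.1 := by positivity
        refine mem_coe.2 (mem_filter.2 ⟨mem_filter.2 ⟨mem_univ _, ?_⟩, ?_, ?_, s.1 + 1, ?_⟩)
        · rw [Fin.lt_def, h2, h3]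
          omega
        · rw [h2]; omega
        · rw [h3]; omega
        · rw [h2, h3, pow_succ]; omega
      · rintro ⟨i, c⟩ hs ⟨j, d⟩ ht hst
        obtain ⟨h2, h3⟩ := hg _ hs
        obtain ⟨h4, h5⟩ := hg _ ht
        rw [hst] at h2 h3
        obtain ⟨rfl, rfl⟩ := hinj c i d j (h2.symm.trans h4) (h3.symm.trans h5)
        rfl
    rwa [card_sigma, sum_congr rfl fun i _ => card_range _] at h1
  have h6 : k * (n / 2) ≤ ∑ i ∈ range k, (n / 2 - 2 ^ i) + ∑ i ∈ range k, 2 ^ i := by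
    rw [← sum_add_distrib]
    calc k * (n / 2) = ∑ _i ∈ range k, (n / 2) := by rw [sum_const, card_range, smul_eq_mul]
      _ ≤ _ := sum_le_sum fun i _ => by omega
  have h7 := sum_pow k
  have h8 : k * (n / 2) + n ≤ A.card + E.card + 2 ^ k := by omega
  rw [e1]
  have h9 : ((k * (n / 2) + n : ℕ) : ℝ) ≤ ((A.card + E.card + 2 ^ k : ℕ) : ℝ) := by
    exact_mod_cast h8
  push_cast at h9 ⊢
  linarith

/-- the lower bound for `t = 2` -/
theorem low2 (n k : ℕ) (hn : 2 ≤ n) (w : PF n 2 → ℝ) (hw : Realiser n 2 w) (ρ : ℝ)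
    (hρ : ∀ x, load w x ≤ ρ) :
    (k : ℝ) + ((n : ℝ) - 2 ^ k) / ((n / 2 : ℕ) : ℝ) ≤ ρ := by
  have h1 := dual hw yy (fun a => if a.val % 2 = 1 then (1 : ℝ) else 0)
    (fun p => by unfold yy; split_ifs <;> norm_num) (fun f hf => count f hf)
  have h2 := total n k (by omega)
  have h3 : ∑ a : Fin n, (if a.val % 2 = 1 then (1 : ℝ) else 0) * load w a ≤
      ∑ a : Fin n, (if a.val % 2 = 1 then (1 : ℝ) else 0) * ρ := by
    refine sum_le_sum fun a _ => ?_
    split_ifs
    · linarith [hρ a]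
    · simp
  have h4 : ∑ a : Fin n, (if a.val % 2 = 1 then (1 : ℝ) else 0) = ((n / 2 : ℕ) : ℝ) := by
    rw [sum_boole]
    congr 1
    have h5 : (univ.filter (fun a : Fin n => a.val % 2 = 1)).card =
        (univ : Finset (Fin (n / 2))).card := by
      symm
      refine card_bij (fun (c : Fin (n / 2)) _ => (⟨2 * c.val + 1, by omega⟩ : Fin n)) ?_ ?_ ?_
      · intro c _
        exact mem_filter.2 ⟨mem_univ _, by simp only; omega⟩
      · intro c _ d _ h
        have h' := congrArg Fin.val h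
        simp only at h'
        exact Fin.ext (by omega)
      · intro a ha
        have ha' := (mem_filter.1 ha).2
        refine ⟨⟨a.val / 2, by omega⟩, mem_univ _, ?_⟩
        apply Fin.ext
        simp only
        omega
    rw [h5, card_univ, Fintype.card_fin]
  rw [← sum_mul, h4] at h3
  have hh : (0 : ℝ) < ((n / 2 : ℕ) : ℝ) := by
    have : 0 < n / 2 := by omega
    exact_mod_cast this
  have h6 := (h2.trans h1).trans h3
  push_cast at h6
  rw [← sub_nonneg] at h6 ⊢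
  have h7 : ρ - ((k : ℝ) + ((n : ℝ) - 2 ^ k) / ((n / 2 : ℕ) : ℝ)) =
      (((n / 2 : ℕ) : ℝ) * ρ - ((k : ℝ) * ((n / 2 : ℕ) : ℝ) + n - 2 ^ k)) /
        ((n / 2 : ℕ) : ℝ) := by
    field_simp
    ring
  rw [h7]
  exact div_nonneg (by simpa using h6) hh.le

end Pool.Agent.X178.LD
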