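import Pool.Agent.X178.LD.Defs

/-!
# The upper bound for t = 2
-/

namespace Pool.Agent.X178.LD

open Finset Classical

noncomputable def nu (D : ℕ → Prop) (x : ℕ) : ℕ := ∑ j ∈ range x, if D j then 0 else 1

theorem nu_succ (D : ℕ → Prop) (x : ℕ) : nu D (x + 1) = nu D x + if D x then 0 else 1 := by
  rw [nu, sum_range_succ]
  rfl

theorem nu_mono (D : ℕ → Prop) {x y : ℕ} (h : x ≤ y) : nu D x ≤ nu D y := by
  induction y, h using Nat.le_induction with
  | base => exact le_rfl
  | succ y _ ih => rw [nu_succ]; omega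

theorem nu_eq (D : ℕ → Prop) (hD : ∀ j, D j → j % 2 = 0) {x y : ℕ} (h : x < y)
    (he : nu D x = nu D y) : y = x + 1 ∧ D x := by
  have h1 := nu_mono D (Nat.succ_le_of_lt h)
  have hx : D x := by
    by_contra hn
    have h2 := nu_succ D x
    rw [if_neg hn] at h2
    simp only [Nat.succ_eq_add_one] at h1
    omega
  refine ⟨?_, hx⟩
  by_contra hne
  have h3 := nu_mono D (show x + 1 + 1 ≤ y by omega)
  have h4 := nu_succ D (x + 1)
  have h5 := nu_succ D x
  have hx1 : ¬ D (x + 1) := by
    intro h6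
    have h7 := hD _ h6
    have h8 := hD _ hx
    omega
  rw [if_neg hx1] at h4
  omega

theorem nu_add (D : ℕ → Prop) (m : ℕ) : nu D m + ((range m).filter D).card = m := by
  have h1 : nu D m = ((range m).filter (fun j => ¬ D j)).card := by
    rw [nu, card_filter]
    refine sum_congr rfl fun j _ => ?_
    by_cases h : D j <;> simp [h]
  rw [h1, add_comm, card_filter_add_card_filter_not, card_range]

/-- two different numbers below `2 ^ k` are separated by a binary digit below a common prefix -/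
theorem digit (k a b : ℕ) (hab : a < b) (hb : b < 2 ^ k) :
    ∃ j < k, a / 2 ^ (j + 1) = b / 2 ^ (j + 1) ∧ (a / 2 ^ j) % 2 = 0 ∧ (b / 2 ^ j) % 2 = 1 := by
  have hex : ∃ m, a / 2 ^ m = b / 2 ^ m :=
    ⟨k, by rw [Nat.div_eq_of_lt hb, Nat.div_eq_of_lt (hab.trans hb)]⟩
  have hk : Nat.find hex ≤ k :=
    Nat.find_min' hex (by rw [Nat.div_eq_of_lt hb, Nat.div_eq_of_lt (hab.trans hb)])
  have hs := Nat.find_spec hex
  have h0 : Nat.find hex ≠ 0 := by
    intro h0
    rw [h0] at hs
    simp at hs
    omega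
  obtain ⟨j, hj⟩ := Nat.exists_eq_succ_of_ne_zero h0
  have hn : ¬ a / 2 ^ j = b / 2 ^ j := Nat.find_min hex (by omega)
  rw [hj, Nat.succ_eq_add_one] at hs
  refine ⟨j, by omega, hs, ?_⟩
  have h1 : a / 2 ^ j ≤ b / 2 ^ j := Nat.div_le_div_right hab.le
  rw [pow_succ, ← Nat.div_div_eq_div_mul, ← Nat.div_div_eq_div_mul] at hs
  omega

/-- the pair `{2 j, 2 j + 1}` shares a leaf at the shift `s` -/
def DD (h r : ℕ) [NeZero h] (s : Fin h) (j : ℕ) : Prop :=
  ∃ i : Fin h, j = 2 * i.val ∧ (i - s).val < r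

/-- the functions of the realiser -/
noncomputable def FF (n h k r : ℕ) [NeZero h] :
    (Fin h × ((Fin k × Fin (2 ^ k)) ⊕ Fin h)) → PF n 2
  | (s, Sum.inl (j, b)) => fun x =>
      if nu (DD h r s) x.val / 2 ^ (j.val + 1) = b.val then
        some (if (nu (DD h r s) x.val / 2 ^ j.val) % 2 = 1 then 1 else 0) else none
  | (s, Sum.inr i) => fun x =>
      if (i - s).val < r then
        (if x.val = 2 * i.val then some 0 else if x.val = 2 * i.val + 1 then some 1 else none)
      else none

theorem FF_mono (n h k r : ℕ) [NeZero h] (u) : Mono (FF n h k r u) := by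
  intro x y a b hxy ha hb
  obtain ⟨s, (⟨j, c⟩ | i)⟩ := u
  · simp only [FF] at ha hb
    split_ifs at ha with h1 h2 <;> split_ifs at hb with h3 h4 <;>
      simp only [Option.some.injEq] at ha hb <;> subst ha <;> subst hb
    · exact le_rfl
    · exfalso
      have h5 := Nat.div_le_div_right (c := 2 ^ j.val) (nu_mono (DD h r s) (Fin.le_def.1 hxy))
      rw [pow_succ, ← Nat.div_div_eq_div_mul] at h1 h3
      omega
    · exact Fin.zero_le _
    · exact le_rfl
  · simp only [FF] at ha hb
    split_ifs at ha with h1 h2 h3 <;> split_ifs at hb with h4 h5 <;>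
      simp only [Option.some.injEq] at ha hb <;> subst ha <;> subst hb
    · exact le_rfl
    · exact Fin.zero_le _
    · exfalso
      have := Fin.le_def.1 hxy
      omega
    · exact le_rfl

end Pool.Agent.X178.LD
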